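import Mathlib
import Pool.Agent.TH861.HB.Base
import Pool.Agent.TH861.HB.Symp

set_option autoImplicit false

open Pool.Agent.TH861.HB

namespace Pool.Agent.Results.MP_872606_gt.ContactPotential

/-- The inequality 3σ ≤ e for all closed symplectic 4-manifolds with b⁺ > 1 holds if and only if there is a
real number κ (Y) for every strongly fillable closed contact 3-manifold Y, additive under disjoint union, such
that e (W) - 3 σ (W) ≥ κ (convex boundary) - κ (concave boundary) for all strong symplectic cobordisms W (each
component of which has nonempty convex boundary or b⁺ > 1). -/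
theorem result {M : Type*} [AddCancelCommMonoid M] (S : SympCobordisms M) : List.TFAE
    [∀ X, S.concave X = 0 → S.convex X = 0 → 3 * S.sig X ≤ S.e X,
     ∃ κ : M → ℝ, ∀ W, κ (S.convex W) ≤ κ (S.concave W) + (S.e W - 3 * S.sig W),
     ∃ κ : M →+ ℝ, ∀ W, κ (S.convex W) ≤ κ (S.concave W) + (S.e W - 3 * S.sig W)] :=
  S.main

end Pool.Agent.Results.MP_872606_gt.ContactPotential
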